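import Pool.Agent.Helper34.Dep.Defs

/-!
# The pole degree on a function field over an algebraically closed field
-/

set_option autoImplicit false
set_option linter.style.haveILetI false

namespace Pool.Agent.Helper64.Dep

open Polynomial Pool.Agent.Helper16 Pool.Agent.Helper47.RR IntermediateField
open Pool.Agent.Helper34.Dep
open scoped Polynomial.Bivariate

section local_order

variable {k M : Type} [Field k] [Field M] [Algebra k M]

/-- the local pole order -/
noncomputable def lp (v : Place k M) (h : M) : ℕ := (-(v.ord h)).toNat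

theorem lp_le_iff (v : Place k M) (h : M) (n : ℕ) :
    lp v h ≤ n ↔ v.val h ≤ WithZero.exp (n : ℤ) := by
  unfold lp
  by_cases h0 : h = 0
  · subst h0
    simp [v.ord_zero]
  · have hv : v.val h ≠ 0 := by simpa using h0
    rw [← WithZero.log_le_iff_le_exp hv, Int.toNat_le]
    unfold Place.ord
    rw [neg_neg]

theorem val_le_lp (v : Place k M) (h : M) : v.val h ≤ WithZero.exp (lp v h : ℤ) :=
  (lp_le_iff v h _).1 le_rfl

theorem lp_add (v : Place k M) (a b : M) : lp v (a + b) ≤ max (lp v a) (lp v b) := by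
  rw [lp_le_iff]
  refine (v.val.map_add a b).trans (max_le ?_ ?_)
  · exact (lp_le_iff v a _).1 (le_max_left _ _)
  · exact (lp_le_iff v b _).1 (le_max_right _ _)

theorem lp_sum {ι : Type} (v : Place k M) (s : Finset ι) (f : ι → M) (n : ℕ)
    (h : ∀ i ∈ s, lp v (f i) ≤ n) : lp v (∑ i ∈ s, f i) ≤ n := by
  rw [lp_le_iff]
  exact v.val.map_sum_le fun i hi => (lp_le_iff v _ _).1 (h i hi)

theorem lp_mul (v : Place k M) (a b : M) : lp v (a * b) ≤ lp v a + lp v b := by
  rw [lp_le_iff, map_mul, Nat.cast_add, WithZero.exp_add]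
  exact mul_le_mul' (val_le_lp v a) (val_le_lp v b)

theorem lp_neg (v : Place k M) (a : M) : lp v (-a) = lp v a := by
  unfold lp Place.ord
  rw [Valuation.map_neg]

theorem lp_algebraMap (v : Place k M) (c : k) : lp v (algebraMap k M c) = 0 := by
  unfold lp
  rw [v.ord_algebraMap]
  rfl

theorem lp_one (v : Place k M) : lp v 1 = 0 := by
  unfold lp
  rw [v.ord_one]
  rfl

theorem lp_pow (v : Place k M) (a : M) (n : ℕ) : lp v (a ^ n) ≤ n * lp v a := by
  induction n with
  | zero => simp [lp_one]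
  | succ n ih =>
    rw [pow_succ, Nat.succ_mul]
    exact (lp_mul v _ _).trans (Nat.add_le_add_right ih _)

theorem lp_aeval (v : Place k M) (p : k[X]) (a : M) : lp v (aeval a p) ≤ p.natDegree * lp v a := by
  rw [aeval_eq_sum_range]
  refine lp_sum v _ _ _ fun i hi => ?_
  rw [Algebra.smul_def]
  refine (lp_mul v _ _).trans ?_
  rw [lp_algebraMap, zero_add]
  refine (lp_pow v a i).trans (Nat.mul_le_mul_right _ ?_)
  have := Finset.mem_range.1 hi
  omega

theorem aevalAeval_eq_sum (P : k[X][Y]) (a b : M) :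
    P.aevalAeval a b = ∑ i ∈ Finset.range (P.natDegree + 1), aeval a (P.coeff i) * b ^ i := by
  conv_lhs => rw [P.as_sum_range_C_mul_X_pow, map_sum]
  refine Finset.sum_congr rfl fun i _ => ?_
  rw [map_mul, map_pow, aevalAeval_C, aevalAeval_Y]

theorem lp_aevalAeval (v : Place k M) (P : k[X][Y]) (m : ℕ) (hP : BiDeg P m) (a b : M) :
    lp v (P.aevalAeval a b) ≤ m * lp v a + m * lp v b := by
  rw [aevalAeval_eq_sum]
  refine lp_sum v _ _ _ fun i hi => ?_
  refine (lp_mul v _ _).trans (Nat.add_le_add ?_ ?_)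
  · exact (lp_aeval v _ a).trans (Nat.mul_le_mul_right _ (hP.2 i))
  · refine (lp_pow v b i).trans (Nat.mul_le_mul_right _ ?_)
    have := Finset.mem_range.1 hi
    have := hP.1
    omega

end local_order

section PD

variable {k M M' : Type} [Field k] [Field M] [Field M'] [Algebra k M] [Algebra k M']
  (hM : IsFunctionField k M) (hM' : IsFunctionField k M')

theorem pd_eq_sum (h : M) (S : Finset (Place k M)) (hS : ∀ v, v.ord h < 0 → v ∈ S) :
    pd hM h = ∑ v ∈ S, lp v h := by
  classical
  have h1 : pd hM h = ∑ v ∈ (prin hM h).support ∪ S, lp v h := by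
    unfold pd
    refine Finset.sum_subset Finset.subset_union_left fun v _ hv => ?_
    have h2 : v.ord h = 0 := by
      by_contra hne
      exact hv (Finsupp.mem_support_iff.2 hne)
    rw [h2]
    rfl
  rw [h1]
  symm
  refine Finset.sum_subset Finset.subset_union_right fun v _ hv => ?_
  have h2 : 0 ≤ v.ord h := by
    by_contra hne
    exact hv (hS v (not_le.1 hne))
  unfold lp
  omega

theorem prin_apply (h : M) (v : Place k M) : prin hM h v = v.ord h := rfl

theorem mem_support_of_ord {h : M} {v : Place k M} (hv : v.ord h < 0) :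
    v ∈ (prin hM h).support :=
  Finsupp.mem_support_iff.2 hv.ne

theorem pd_le_of_lp {a b c : M} (m n : ℕ) (h : ∀ v : Place k M, lp v c ≤ m * lp v a + n * lp v b) :
    pd hM c ≤ m * pd hM a + n * pd hM b := by
  classical
  set S := (prin hM a).support ∪ ((prin hM b).support ∪ (prin hM c).support) with hS
  rw [pd_eq_sum hM a S (fun v hv => by
      simp only [hS, Finset.mem_union]; exact Or.inl (mem_support_of_ord hM hv)),
    pd_eq_sum hM b S (fun v hv => by
      simp only [hS, Finset.mem_union]; exact Or.inr (Or.inl (mem_support_of_ord hM hv))),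
    pd_eq_sum hM c S (fun v hv => by
      simp only [hS, Finset.mem_union]; exact Or.inr (Or.inr (mem_support_of_ord hM hv))),
    Finset.mul_sum, Finset.mul_sum, ← Finset.sum_add_distrib]
  exact Finset.sum_le_sum fun v _ => h v

theorem pd_add (a b : M) : pd hM (a + b) ≤ pd hM a + pd hM b := by
  have := pd_le_of_lp hM (a := a) (b := b) (c := a + b) 1 1 fun v => by
    refine (lp_add v a b).trans ?_
    rw [one_mul, one_mul]
    exact max_le (Nat.le_add_right _ _) (Nat.le_add_left _ _)
  simpa using this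

theorem pd_mul (a b : M) : pd hM (a * b) ≤ pd hM a + pd hM b := by
  have := pd_le_of_lp hM (a := a) (b := b) (c := a * b) 1 1 fun v => by
    rw [one_mul, one_mul]
    exact lp_mul v a b
  simpa using this

theorem pd_neg (a : M) : pd hM (-a) = pd hM a := by
  rw [pd_eq_sum hM (-a) ((prin hM a).support) (fun v hv => mem_support_of_ord hM (by
      have h1 := lp_neg v a
      unfold lp at h1
      omega)),
    pd_eq_sum hM a ((prin hM a).support) (fun v hv => mem_support_of_ord hM hv)]
  exact Finset.sum_congr rfl fun v _ => lp_neg v a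

theorem pd_sub (a b : M) : pd hM (a - b) ≤ pd hM a + pd hM b := by
  rw [sub_eq_add_neg]
  refine (pd_add hM _ _).trans ?_
  rw [pd_neg]

theorem pd_algebraMap (a : k) : pd hM (algebraMap k M a) = 0 := by
  rw [pd_eq_sum hM _ ∅ (fun v hv => by rw [v.ord_algebraMap] at hv; exact absurd hv (lt_irrefl _))]
  rfl

theorem pd_zero : pd hM (0 : M) = 0 := by
  have := pd_algebraMap hM (0 : k)
  rwa [map_zero] at this

theorem pd_aeval (p : k[X]) (a : M) : pd hM (aeval a p) ≤ p.natDegree * pd hM a := by
  have := pd_le_of_lp hM (a := a) (b := a) (c := aeval a p) p.natDegree 0 fun v => by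
    rw [zero_mul, add_zero]
    exact lp_aeval v p a
  simpa using this

theorem pd_aevalAeval (P : k[X][Y]) (m : ℕ) (hP : BiDeg P m) (a b : M) :
    pd hM (P.aevalAeval a b) ≤ m * pd hM a + m * pd hM b :=
  pd_le_of_lp hM m m fun v => lp_aevalAeval v P m hP a b

variable [IsAlgClosed k]

theorem pd_inv (a : M) : pd hM a⁻¹ = pd hM a := by
  obtain ⟨S, hS, hsum⟩ := hM.product_formula a
  have h1 : pd hM a = ∑ v ∈ S, lp v a := pd_eq_sum hM a S fun v hv => (hS v).2 hv.ne
  have h2 : pd hM a⁻¹ = ∑ v ∈ S, lp v a⁻¹ := pd_eq_sum hM a⁻¹ S fun v hv => (hS v).2 (by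
    rw [v.ord_inv] at hv
    omega)
  have h3 : ∀ v ∈ S, v.ord a * (v.deg : ℤ) = (lp v a⁻¹ : ℤ) - (lp v a : ℤ) := by
    intro v _
    rw [Pool.Agent.Helper45.S4.deg_eq_one' hM v]
    unfold lp
    rw [v.ord_inv]
    omega
  rw [Finset.sum_congr rfl h3, Finset.sum_sub_distrib] at hsum
  have h4 : ((∑ v ∈ S, lp v a⁻¹ : ℕ) : ℤ) = ((∑ v ∈ S, lp v a : ℕ) : ℤ) := by
    push_cast
    linarith
  rw [h1, h2]
  exact_mod_cast h4

theorem card_zeros_le (h : M) (h0 : h ≠ 0) (S : Finset (Place k M)) (hS : ∀ v ∈ S, v.val h < 1) :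
    S.card ≤ pd hM h := by
  classical
  rw [← pd_inv hM h, pd_eq_sum hM h⁻¹ (S ∪ (prin hM h⁻¹).support)
    (fun v hv => Finset.mem_union_right _ (mem_support_of_ord hM hv))]
  calc S.card = ∑ v ∈ S, 1 := by simp
    _ ≤ ∑ v ∈ S, lp v h⁻¹ := Finset.sum_le_sum fun v hv => by
        have h1 := (v.ord_pos_iff h0).2 (hS v hv)
        unfold lp
        rw [v.ord_inv]
        omega
    _ ≤ _ := Finset.sum_le_sum_of_subset Finset.subset_union_left

theorem pd_eq_finrank (a : M) (ha : Transcendental k a) : pd hM a = Module.finrank k⟮a⟯ M := by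
  obtain ⟨T, h3, h4, -⟩ := hM.zeros a⁻¹ (transcendental_inv ha)
  rw [finrank_inv] at h4
  have ha0 : a ≠ 0 := transcendental_ne_zero ha
  have h5 : pd hM a = ∑ v ∈ T, lp v a := pd_eq_sum hM a T fun v hv => by
    rw [h3, ← v.ord_pos_iff (inv_ne_zero ha0), v.ord_inv]
    omega
  have h6 : ∀ v ∈ T, v.ord a⁻¹ * (v.deg : ℤ) = (lp v a : ℤ) := by
    intro v hv
    rw [h3, ← v.ord_pos_iff (inv_ne_zero ha0)] at hv
    rw [Pool.Agent.Helper45.S4.deg_eq_one' hM v]
    unfold lp
    rw [v.ord_inv] at hv ⊢
    omega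
  rw [Finset.sum_congr rfl h6] at h4
  rw [h5]
  exact_mod_cast h4

omit [Field M'] [Algebra k M'] in
theorem exists_algebraMap_of_isAlgebraic {a : M} (ha : IsAlgebraic k a) :
    ∃ c : k, algebraMap k M c = a := by
  haveI h1 : Algebra.IsAlgebraic k k⟮a⟯ := IntermediateField.isAlgebraic_adjoin fun x hx => by
    rw [Set.mem_singleton_iff.1 hx]
    exact ha.isIntegral
  have h2 : Function.Bijective (algebraMap k k⟮a⟯) :=
    IsAlgClosed.algebraMap_bijective_of_isIntegral
  obtain ⟨c, hc⟩ := h2.2 ⟨a, IntermediateField.mem_adjoin_simple_self k a⟩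
  exact ⟨c, congrArg Subtype.val hc⟩

theorem pd_hom (φ : M →ₐ[k] M') (a : M) :
    pd hM' (φ a) = Module.finrank φ.fieldRange M' * pd hM a := by
  by_cases ha : IsAlgebraic k a
  · obtain ⟨c, rfl⟩ := exists_algebraMap_of_isAlgebraic ha
    rw [φ.commutes, pd_algebraMap, pd_algebraMap, mul_zero]
  · have ha' : Transcendental k (φ a) := by
      intro h
      exact ha ((isAlgebraic_algHom_iff φ φ.toRingHom.injective).1 h)
    rw [pd_eq_finrank hM a ha, pd_eq_finrank hM' _ ha']
    letI : Algebra M M' := φ.toRingHom.toAlgebra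
    haveI : IsScalarTower k M M' := IsScalarTower.of_algebraMap_eq (fun x => (φ.commutes x).symm)
    have h1 := Pool.Agent.Helper45.S4.finrank_tower (k := k) (M := M') a
    have h2 : Module.finrank M M' = Module.finrank φ.fieldRange M' := by
      refine Algebra.finrank_eq_of_equiv_equiv
        (AlgEquiv.ofInjectiveField φ).toRingEquiv (RingEquiv.refl M') ?_
      ext x
      rfl
    rw [← h2, mul_comm]
    exact h1

end PD

end Pool.Agent.Helper64.Dep
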